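import Pool.Agent.H499R2.NDExc2

/-! Late returns to the size of the starting value are rare. -/

set_option autoImplicit false

namespace Pool.Agent.Y965.GQ

open Finset Filter Topology Pool.Agent.H499R2.ND
open Pool.Agent.H320R2.PD

open Pool.Agent.H319R2.Lln (mu)

theorem late_return {τ : ℝ} (hτ : 0 < τ) (D : ℕ) :
    Dn (fun n => Bdd n ∧ ∃ k : ℕ, τ * Real.log n ≤ k ∧ n ≤ D * Tn^[k] n) 0 := by
  classical
  have hPk : ∀ k n, Bdd n ↔ Bdd (Tn^[k] n) := fun k n => Bdd_iter n k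
  have hmu := mu_pos'
  rw [zd_iff]
  intro η hη
  obtain ⟨y, hy⟩ := hit (κ := 2 / Real.log (4 / 3) + 1) (by linarith) (ε := η / 3) (by positivity)
  have hM : ∀ a : ℕ, ∃ M : ℕ, Bdd a → ∀ k, Tn^[k] a ≤ M := by
    intro a
    by_cases h : Bdd a
    · obtain ⟨M, hM⟩ := h
      exact ⟨M, fun _ => hM⟩
    · exact ⟨0, fun h' => absurd h' h⟩
  choose M hM using hM
  set W0 : ℕ := (range (y + 1)).sup M with hW0
  set e : ℝ := mu * τ / 2 with he
  have he0 : 0 < e := by positivity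
  set W : ℕ := D * W0 + ⌈Real.exp (Real.log (D + 1) / e)⌉₊ with hW
  have h1 := zd_iff.1 (full_zd (ε := e) he0 (fun a => a ≤ y)) (η / 3) (by positivity)
  have h2 := zd_iff.1 (zd_bdd (W + 1)) (η / 3) (by positivity)
  filter_upwards [hy, h1, h2] with N h3 h4 h5
  have hsplit : cnt (fun n => Bdd n ∧ ∃ k : ℕ, τ * Real.log n ≤ k ∧ n ≤ D * Tn^[k] n) N ≤
      cnt (fun n => ∀ j : ℕ, (j : ℝ) ≤ (2 / Real.log (4 / 3) + 1) * Real.log n → y < Tn^[j] n) N
      + (cnt (fun n : ℕ => (∃ k, Tn^[k] n ≤ y) ∧ ¬ ∃ t : ℕ, Tn^[t] n ≤ y ∧ (∀ j < t, ¬ Tn^[j] n ≤ y) ∧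
      ∀ j ≤ t, |Real.log ((Tn^[j] n : ℕ) : ℝ) - Real.log n + mu * j| ≤ e * Real.log n) N
      + cnt (fun n : ℕ => (n : ℝ) ≤ (W : ℝ) + 1) N) := by
    refine (cnt_or N (Q := fun n => ∀ j : ℕ, (j : ℝ) ≤ (2 / Real.log (4 / 3) + 1) * Real.log n →
      y < Tn^[j] n) (R := fun n => ((∃ k, Tn^[k] n ≤ y) ∧ ¬ ∃ t : ℕ, Tn^[t] n ≤ y ∧
      (∀ j < t, ¬ Tn^[j] n ≤ y) ∧
      ∀ j ≤ t, |Real.log ((Tn^[j] n : ℕ) : ℝ) - Real.log n + mu * j| ≤ e * Real.log n) ∨
      (n : ℝ) ≤ (W : ℝ) + 1) fun n hn hnN hp => ?_).trans (add_le_add le_rfl (cnt_or N fun n _ _ h => h))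
    by_contra hcon
    push Not at hcon
    obtain ⟨⟨j, _, hj⟩, hcon1, hcon2⟩ := hcon
    obtain ⟨t, ht, _, hprof⟩ := hcon1 ⟨j, hj⟩
    obtain ⟨hPn, k, hk1, hk2⟩ := hp
    have hnR : (0 : ℝ) < n := by exact_mod_cast hn
    have hnW : W < n := by
      have : (W : ℝ) < n := by linarith
      exact_mod_cast this
    rcases le_or_gt k t with hkt | hkt
    · have h6 := (abs_le.1 (hprof k hkt)).2
      have hT0 : 0 < Tn^[k] n := by
        rcases Nat.eq_zero_or_pos (Tn^[k] n) with h0 | h0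
        · rw [h0, mul_zero] at hk2; omega
        · exact h0
      have hTR : (0 : ℝ) < ((Tn^[k] n : ℕ) : ℝ) := by exact_mod_cast hT0
      have h7 : Real.log n ≤ Real.log ((D : ℝ) + 1) + Real.log ((Tn^[k] n : ℕ) : ℝ) := by
        rw [← Real.log_mul (by positivity) hTR.ne']
        apply Real.log_le_log hnR
        have h8 : (n : ℝ) ≤ D * ((Tn^[k] n : ℕ) : ℝ) := by exact_mod_cast hk2
        nlinarith
      have h9 : mu * (τ * Real.log n) ≤ mu * k := mul_le_mul_of_nonneg_left hk1 hmu.le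
      have h10 : mu * (τ * Real.log n) = 2 * e * Real.log n := by rw [he]; ring
      have h11 : e * Real.log n ≤ Real.log ((D : ℝ) + 1) := by linarith
      have h12 : Real.log n ≤ Real.log ((D : ℝ) + 1) / e := by rw [le_div_iff₀ he0]; linarith
      have h13 : (n : ℝ) ≤ Real.exp (Real.log ((D : ℝ) + 1) / e) := by
        rw [← Real.log_le_iff_le_exp hnR]; exact h12
      have h14 := h13.trans (Nat.le_ceil _)
      have h15 : n ≤ ⌈Real.exp (Real.log ((D : ℝ) + 1) / e)⌉₊ := by exact_mod_cast h14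
      omega
    · obtain ⟨i, rfl⟩ := Nat.exists_eq_add_of_lt hkt
      have h6 : Bdd (Tn^[t] n) := (hPk t n).1 hPn
      have h7 := hM (Tn^[t] n) h6 (i + 1)
      rw [← Function.iterate_add_apply, show i + 1 + t = t + i + 1 by ring] at h7
      have h8 : M (Tn^[t] n) ≤ W0 := Finset.le_sup (f := M) (mem_range.2 (by omega))
      have h9 : D * Tn^[t + i + 1] n ≤ D * W0 := Nat.mul_le_mul_left _ (h7.trans h8)
      omega
  linarith

end Pool.Agent.Y965.GQ
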