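import Pool.Agent.Y965.GQ.Tr
import Pool.Agent.Y965.GQ.Late
import Pool.Agent.Y965.GP.Fin2

/-! Counting along `⌊n ^ c⌋`. -/

set_option autoImplicit false

namespace Pool.Agent.Y965.GQ

open Finset Filter Topology Pool.Agent.H499R2.ND Pool.Agent.Y965.PS Pool.Agent.Y965.GP
open Pool.Agent.Helper894.Collatz (od er)

open Classical in
/-- characteristic function -/
noncomputable def ic (P : ℕ → Prop) (x : ℕ) : ℝ := if P x then 1 else 0

theorem ic_nonneg (P : ℕ → Prop) (x : ℕ) : 0 ≤ ic P x := by unfold ic; split_ifs <;> simp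

theorem ic_le_one (P : ℕ → Prop) (x : ℕ) : ic P x ≤ 1 := by unfold ic; split_ifs <;> simp

theorem ic_abs (P : ℕ → Prop) (x : ℕ) : |ic P x| ≤ 1 := by unfold ic; split_ifs <;> simp

theorem ic_mono {P Q : ℕ → Prop} {x : ℕ} (h : P x → Q x) : ic P x ≤ ic Q x := by
  unfold ic
  by_cases h1 : P x
  · rw [if_pos h1, if_pos (h h1)]
  · rw [if_neg h1]; split_ifs <;> simp

theorem ic_congr {P Q : ℕ → Prop} {x y : ℕ} (h : P x ↔ Q y) : ic P x = ic Q y := by
  unfold ic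
  by_cases h1 : P x
  · rw [if_pos h1, if_pos (h.1 h1)]
  · rw [if_neg h1, if_neg (fun h2 => h1 (h.2 h2))]

theorem cnt_ic (P : ℕ → Prop) (t : ℕ) : cnt P t = ∑ x ∈ Icc 1 t, ic P x := by
  classical
  rw [cnt_eq]
  unfold ic
  rw [Finset.sum_boole]

/-- the number of the `n ≤ N` with `P ⌊n ^ c⌋` -/
noncomputable def pc (c : ℝ) (P : ℕ → Prop) (N : ℕ) : ℝ := ∑ n ∈ Icc 1 N, ic P ⌊(n : ℝ) ^ c⌋₊

/-- the weighted number of the `x ≤ N ^ c` with `P x` -/
noncomputable def wc (c : ℝ) (P : ℕ → Prop) (N : ℕ) : ℝ := ∑ x ∈ Icc 1 ⌊(N : ℝ) ^ c⌋₊, ic P x * ell (1 / c) x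

/-- the transfer for properties -/
def TR (c a K : ℝ) : Prop := ∀ N : ℕ, 1 ≤ N → ∀ (g : ℕ → Bool) (P : ℕ → Prop),
  (∀ n v, g (n + 2 ^ kk 2 ⌊(N : ℝ) ^ c⌋₊ * v) = g n) →
  (∀ n n', Tn^[kk 2 ⌊(N : ℝ) ^ c⌋₊] n = Tn^[kk 2 ⌊(N : ℝ) ^ c⌋₊] n' → g n = g n' → (P n ↔ P n')) →
  |pc c P N - wc c P N| ≤ K * (N : ℝ) ^ (1 - a)

theorem transfer3 : ∃ a : ℝ, 0 < a ∧ a ≤ 1 / 20 ∧ ∀ c : ℝ, 1 < c → c < 1 / (1 - a) → ∃ K : ℝ, 1 ≤ K ∧ TR c a K := by
  obtain ⟨a, ha0, ha, h⟩ := transferG adm3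
  refine ⟨a, ha0, ha, fun c hc hca => ?_⟩
  obtain ⟨K, hK, hb⟩ := h c hc hca
  refine ⟨K, hK, fun N hN g P hg hP => ?_⟩
  refine hb 1 (Or.inl rfl) N hN g (ic P) ⟨ic_abs P, hg, fun n n' _ _ he hgg => ic_congr (hP n n' ?_ hgg)⟩
  rw [one_mul, one_mul, Tm3_iter, Tm3_iter] at he
  exact_mod_cast he

theorem wc_le {c : ℝ} (hc : 1 < c) {P : ℕ → Prop} {N : ℕ} (hN : 1 ≤ N) {ε C : ℝ} (hε : 0 ≤ ε) (hC : 0 ≤ C)
    (h : ∀ t : ℕ, t ≤ ⌊(N : ℝ) ^ c⌋₊ → cnt P t ≤ ε * t + C) : wc c P N ≤ 2 * ε * N + C := by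
  classical
  set M := ⌊(N : ℝ) ^ c⌋₊ with hM
  have hc0 : 0 < c := by linarith
  have hγ0 : 0 < 1 / c := by positivity
  have hγ1 : 1 / c < 1 := by rw [div_lt_one hc0]; exact hc
  set Q : ℕ → Prop := fun x => P x ∧ x ≤ M with hQ
  have e1 : wc c P N = ∑ x ∈ Icc 1 M, ic Q x * ell (1 / c) x := by
    unfold wc
    apply sum_congr rfl
    intro x hx
    rw [mem_Icc] at hx
    congr 1
    exact ic_congr ⟨fun h => ⟨h, hx.2⟩, fun h => h.1⟩
  have h2 : ∀ t : ℕ, |∑ x ∈ Icc 1 t, ic Q x - 0 * t| ≤ ε * t + C := by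
    intro t
    rw [zero_mul, sub_zero, abs_of_nonneg (sum_nonneg fun _ _ => ic_nonneg _ _), ← cnt_ic]
    rcases le_or_gt t M with htM | htM
    · exact (cnt_mono t fun n _ _ hn => hn.1).trans (h t htM)
    · have h3 : cnt Q t ≤ cnt P M := by
        rw [cnt_eq, cnt_eq]
        have : (Icc 1 t).filter Q ⊆ (Icc 1 M).filter P := by
          intro n hn
          rw [mem_filter, mem_Icc] at hn ⊢
          exact ⟨⟨hn.1.1, hn.2.2⟩, hn.2.1⟩
        exact_mod_cast card_le_card this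
      have h4 : (M : ℝ) ≤ t := by exact_mod_cast htM.le
      have h5 := h M le_rfl
      nlinarith
  have h3 := abel hγ0 hγ1 (a := ic Q) (δ := 0) hε hC h2 M
  rw [zero_mul, sub_zero] at h3
  have h4 := (abs_le.1 h3).2
  have h5 := Mpow_le hc hN
  rw [← hM] at h5
  rw [e1]
  nlinarith

theorem wc_lim {c : ℝ} (hc : 1 < c) {P : ℕ → Prop} {δ : ℝ} (hδ : Dn P δ) :
    Tendsto (fun N : ℕ => wc c P N / N) atTop (𝓝 δ) := by
  have hc0 : 0 < c := by linarith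
  have hγ0 : 0 < 1 / c := by positivity
  have hγ1 : 1 / c < 1 := by rw [div_lt_one hc0]; exact hc
  unfold Dn at hδ
  rw [Metric.tendsto_atTop] at hδ ⊢
  intro ε hε
  obtain ⟨N0, hN0⟩ := hδ (ε / 8) (by positivity)
  have hD : 0 ≤ |δ| := abs_nonneg δ
  set C : ℝ := N0 * (1 + |δ|) with hC
  have hC0 : 0 ≤ C := by positivity
  have h2 : ∀ t : ℕ, |∑ x ∈ Icc 1 t, ic P x - δ * t| ≤ ε / 8 * t + C := by
    intro t
    rw [← cnt_ic]
    rcases Nat.eq_zero_or_pos t with h0 | h0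
    · rw [h0]; simp [cnt_ic]; exact hC0
    · have htp : (0 : ℝ) < t := by exact_mod_cast h0
      rcases lt_or_ge t N0 with hlt | hge
      · have h3 : 0 ≤ cnt P t := cntn_nonneg _ _
        have h4 : cnt P t ≤ t := by
          rw [cnt_ic]
          calc ∑ x ∈ Icc 1 t, ic P x ≤ ∑ x ∈ Icc 1 t, (1 : ℝ) := sum_le_sum fun n _ => ic_le_one _ _
            _ = t := by simp
        have h5 : (t : ℝ) ≤ N0 := by exact_mod_cast hlt.le
        have h6 : 0 ≤ ε / 8 * t := by positivity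
        have h7 : |cnt P t - δ * t| ≤ t + |δ| * t := by
          refine (abs_sub _ _).trans ?_
          rw [abs_of_nonneg h3, abs_mul, Nat.abs_cast]
          linarith
        have h8 : t + |δ| * t ≤ C := by rw [hC]; nlinarith
        linarith
      · have h3 := hN0 t hge
        rw [Real.dist_eq] at h3
        have h4 : |cnt P t - δ * t| = |cnt P t / t - δ| * t := by
          rw [← abs_of_pos htp, ← abs_mul, abs_of_pos htp]
          congr 1
          field_simp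
        rw [h4]
        have h5 := mul_le_mul_of_nonneg_right h3.le htp.le
        linarith
  -- large `N`
  obtain ⟨N2, hN2⟩ := exists_nat_gt (8 * (C + |δ| + 1) / ε)
  refine ⟨max 1 N2, fun N hN => ?_⟩
  have hN1' : 1 ≤ N := (le_max_left _ _).trans hN
  have hNp : (0 : ℝ) < N := by exact_mod_cast hN1'
  have hbig : 8 * (C + |δ| + 1) < ε * N := by
    have h3 : (N2 : ℝ) ≤ N := by exact_mod_cast (le_max_right _ _).trans hN
    have h4 := lt_of_lt_of_le hN2 h3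
    rw [div_lt_iff₀ hε] at h4
    linarith
  set M := ⌊(N : ℝ) ^ c⌋₊ with hM
  have h3 := abel hγ0 hγ1 (a := ic P) (δ := δ) (ε := ε / 8) (C := C) (by positivity) hC0 h2 M
  have h4 := Mpow_le hc hN1'
  rw [← hM] at h4
  have h5 : (N : ℝ) ≤ ((M : ℝ) + 1) ^ (1 / c) := by
    have h6 : (N : ℝ) ^ c ≤ (M : ℝ) + 1 := (Nat.lt_floor_add_one _).le
    calc (N : ℝ) = ((N : ℝ) ^ c) ^ (1 / c) := by
          rw [← Real.rpow_mul hNp.le, one_div, mul_inv_cancel₀ hc0.ne', Real.rpow_one]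
      _ ≤ _ := Real.rpow_le_rpow (by positivity) h6 hγ0.le
  have h6 : ((M : ℝ) + 1) ^ (1 / c) ≤ N + 1 := by
    have g1 : (M : ℝ) ≤ (N : ℝ) ^ c := Nat.floor_le (by positivity)
    have g2 := pow_gap hc.le (Nat.cast_nonneg N : (0 : ℝ) ≤ N)
    calc ((M : ℝ) + 1) ^ (1 / c) ≤ (((N : ℝ) + 1) ^ c) ^ (1 / c) :=
          Real.rpow_le_rpow (by positivity) (by linarith) (by positivity)
      _ = (N : ℝ) + 1 := by
          rw [← Real.rpow_mul (by positivity), one_div, mul_inv_cancel₀ hc0.ne', Real.rpow_one]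
  set R := ((M : ℝ) + 1) ^ (1 / c) with hR
  have h7 : |δ * (R - 1) - δ * N| ≤ |δ| := by
    have e : δ * (R - 1) - δ * N = δ * (R - 1 - N) := by ring
    rw [e, abs_mul]
    have : |R - 1 - N| ≤ 1 := by rw [abs_le]; constructor <;> linarith
    nlinarith
  have h8 : |wc c P N - δ * N| ≤ (ε / 8 * (2 * N) + C) + |δ| := by
    have e1 : wc c P N - δ * N = (∑ x ∈ Icc 1 M, ic P x * ell (1 / c) x - δ * (R - 1)) + (δ * (R - 1) - δ * N) := by
      unfold wc; ring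
    rw [e1]
    refine (abs_add_le _ _).trans (add_le_add ?_ h7)
    refine h3.trans ?_
    have : ε / 8 * R ≤ ε / 8 * (2 * N) := mul_le_mul_of_nonneg_left h4 (by positivity)
    linarith
  have h9 : |wc c P N / N - δ| = |wc c P N - δ * N| / N := by
    rw [← abs_of_pos hNp, ← abs_div, abs_of_pos hNp]
    congr 1
    field_simp
  rw [Real.dist_eq, h9, div_lt_iff₀ hNp]
  have h10 : ε / 8 * (2 * N) = ε * N / 4 := by ring
  have h11 : 0 < ε * N := by positivity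
  linarith

/-- eventually synchronous properties have along `⌊n ^ c⌋` their natural density -/
theorem pc_lim {c a K : ℝ} (hc : 1 < c) (ha : 0 < a) (hT : TR c a K) {P : ℕ → Prop} {δ : ℝ} (hδ : Dn P δ)
    (hP : ∀ᶠ N : ℕ in atTop, ∃ g : ℕ → Bool, (∀ n v, g (n + 2 ^ kk 2 ⌊(N : ℝ) ^ c⌋₊ * v) = g n) ∧
      ∀ n n', Tn^[kk 2 ⌊(N : ℝ) ^ c⌋₊] n = Tn^[kk 2 ⌊(N : ℝ) ^ c⌋₊] n' → g n = g n' → (P n ↔ P n')) :
    Tendsto (fun N : ℕ => pc c P N / N) atTop (𝓝 δ) := by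
  have h1 := wc_lim hc hδ
  have h2 : Tendsto (fun N : ℕ => pc c P N / N - wc c P N / N) atTop (𝓝 0) := by
    have h3 : Tendsto (fun N : ℕ => |K| * (N : ℝ) ^ (-a)) atTop (𝓝 0) := by
      have := ((tendsto_rpow_neg_atTop ha).comp tendsto_natCast_atTop_atTop).const_mul |K|
      rw [mul_zero] at this
      exact this
    refine squeeze_zero_norm' ?_ h3
    filter_upwards [hP, eventually_ge_atTop 1] with N hN hN1
    obtain ⟨g, hg1, hg2⟩ := hN
    have hNp : (0 : ℝ) < N := by exact_mod_cast hN1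
    have h4 := hT N hN1 g P hg1 hg2
    rw [Real.norm_eq_abs, ← sub_div, abs_div, abs_of_pos hNp, div_le_iff₀ hNp]
    refine h4.trans ?_
    have h10 : (N : ℝ) ^ (1 - a) = (N : ℝ) ^ (-a) * N := by
      rw [sub_eq_neg_add, Real.rpow_add hNp, Real.rpow_one]
    rw [h10, ← mul_assoc]
    apply mul_le_mul_of_nonneg_right _ hNp.le
    exact mul_le_mul_of_nonneg_right (le_abs_self K) (by positivity)
  have h3 := h2.add h1
  rw [zero_add] at h3
  refine h3.congr fun N => ?_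
  ring

end Pool.Agent.Y965.GQ
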