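import Pool.Agent.Y965.GQ.Exc

/-! The law of the maximum excursion along `⌊n ^ c⌋`. -/

set_option autoImplicit false

namespace Pool.Agent.Y965.GQ

open Finset Filter Topology Pool.Agent.H499R2.ND Pool.Agent.Y965.PS Pool.Agent.Y965.GP
open Pool.Agent.Helper894.Collatz (od er)

/-- the rare event between the times `K` and `k` -/
def Ep (K k x : ℕ) : Prop := ∃ i, K ≤ i ∧ i ≤ k ∧ 2 ^ i < 2 * 3 ^ od i x

theorem od_period {i k : ℕ} (hi : i ≤ k) (n v : ℕ) : od i (n + 2 ^ k * v) = od i n := by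
  rw [← od_mod i (n + 2 ^ k * v) hi, Nat.add_mul_mod_self_left, od_mod i n hi]

theorem Ep_period (K k n v : ℕ) : Ep K k (n + 2 ^ k * v) ↔ Ep K k n := by
  unfold Ep
  refine exists_congr fun i => ?_
  constructor
  · rintro ⟨h1, h2, h3⟩
    rw [od_period h2] at h3
    exact ⟨h1, h2, h3⟩
  · rintro ⟨h1, h2, h3⟩
    refine ⟨h1, h2, ?_⟩
    rw [od_period h2]
    exact h3

theorem geom_le (K k : ℕ) : ∑ i ∈ Icc K k, th ^ i ≤ th ^ K / (1 - th) := by
  have hth := th_pos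
  have hth1 := th_lt
  have h1 : (0 : ℝ) < 1 - th := by linarith
  rcases lt_or_ge k K with hlt | hge
  · rw [Icc_eq_empty (by omega), sum_empty]
    positivity
  · have e : Icc K k = Ico K (K + (k + 1 - K)) := by
      ext i
      rw [mem_Icc, mem_Ico]
      omega
    rw [e, Finset.sum_Ico_eq_sum_range, Nat.add_sub_cancel_left]
    have h2 : ∑ i ∈ range (k + 1 - K), th ^ (K + i) = th ^ K * ∑ i ∈ range (k + 1 - K), th ^ i := by
      rw [mul_sum]; apply sum_congr rfl; intro i _; rw [pow_add]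
    have h3 : ∑ i ∈ range (k + 1 - K), th ^ i ≤ 1 / (1 - th) := by
      rw [geom_sum_eq hth1.ne, le_div_iff₀ (by linarith)]
      have h4 : (th ^ (k + 1 - K) - 1) / (th - 1) * (1 - th) = 1 - th ^ (k + 1 - K) := by
        have : th - 1 ≠ 0 := by linarith
        field_simp
        ring
      rw [h4]
      have : 0 < th ^ (k + 1 - K) := by positivity
      linarith
    rw [h2]
    calc th ^ K * ∑ i ∈ range (k + 1 - K), th ^ i ≤ th ^ K * (1 / (1 - th)) := mul_le_mul_of_nonneg_left h3 (by positivity)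
      _ = th ^ K / (1 - th) := by ring

theorem Ep_cnt (K k t : ℕ) : cnt (Ep K k) t ≤ 2 * th ^ K / (1 - th) * t + 2 / (1 - th) * 2 ^ k := by
  classical
  have hth := th_pos
  have hth1 := th_lt
  have h1 : (0 : ℝ) < 1 - th := by linarith
  set R : ℕ → Finset ℕ := fun i => (range (2 ^ i)).filter (fun r => 2 ^ i < 2 * 3 ^ od i r) with hR
  have hsub : (Icc 1 t).filter (Ep K k) ⊆ (Icc K k).biUnion (fun i => (Icc 1 t).filter (fun n => n % 2 ^ i ∈ R i)) := by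
    intro n hn
    rw [mem_filter] at hn
    obtain ⟨hn1, i, hi1, hi2, hi3⟩ := hn
    rw [mem_biUnion]
    refine ⟨i, mem_Icc.2 ⟨hi1, hi2⟩, ?_⟩
    rw [mem_filter]
    refine ⟨hn1, ?_⟩
    rw [hR]
    simp only
    rw [mem_filter, mem_range]
    refine ⟨Nat.mod_lt _ (by positivity), ?_⟩
    rw [od_mod i n le_rfl]
    exact hi3
  have h2 := (card_le_card hsub).trans card_biUnion_le
  have h3 : cnt (Ep K k) t ≤ ∑ i ∈ Icc K k, (((Icc 1 t).filter (fun n => n % 2 ^ i ∈ R i)).card : ℝ) := by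
    rw [cnt_eq]
    exact_mod_cast h2
  have h4 : ∀ i ∈ Icc K k, (((Icc 1 t).filter (fun n => n % 2 ^ i ∈ R i)).card : ℝ) ≤ 2 * ((t : ℝ) + 2 ^ k) * th ^ i := by
    intro i hi
    rw [mem_Icc] at hi
    have g1 := card_mod_le t (2 ^ i) (R i)
    have g2 := count_residues i
    have g3 : ((t / 2 ^ i + 1 : ℕ) : ℝ) * 2 ^ i ≤ t + 2 ^ k := by
      have g4 : (t / 2 ^ i + 1) * 2 ^ i ≤ t + 2 ^ k := by
        have g5 := Nat.div_mul_le_self t (2 ^ i)
        have g6 : 2 ^ i ≤ 2 ^ k := Nat.pow_le_pow_right (by norm_num) hi.2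
        rw [add_mul]; omega
      exact_mod_cast g4
    have g4 : (((Icc 1 t).filter (fun n => n % 2 ^ i ∈ R i)).card : ℝ) ≤ ((t / 2 ^ i + 1 : ℕ) : ℝ) * ((R i).card : ℝ) := by
      exact_mod_cast g1
    calc _ ≤ _ := g4
      _ ≤ ((t / 2 ^ i + 1 : ℕ) : ℝ) * (2 * th ^ i * 2 ^ i) := mul_le_mul_of_nonneg_left g2 (Nat.cast_nonneg _)
      _ = 2 * th ^ i * (((t / 2 ^ i + 1 : ℕ) : ℝ) * 2 ^ i) := by ring
      _ ≤ 2 * th ^ i * (t + 2 ^ k) := mul_le_mul_of_nonneg_left g3 (by positivity)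
      _ = _ := by ring
  refine h3.trans ((sum_le_sum h4).trans ?_)
  rw [← mul_sum]
  have h5 := geom_le K k
  have h6 : 2 * ((t : ℝ) + 2 ^ k) * ∑ i ∈ Icc K k, th ^ i ≤ 2 * ((t : ℝ) + 2 ^ k) * (th ^ K / (1 - th)) :=
    mul_le_mul_of_nonneg_left h5 (by positivity)
  have h7 : th ^ K ≤ 1 := pow_le_one₀ hth.le hth1.le
  have h8 : 2 * th ^ K / (1 - th) * (2 : ℝ) ^ k ≤ 2 / (1 - th) * 2 ^ k := by
    apply mul_le_mul_of_nonneg_right _ (by positivity)
    apply div_le_div_of_nonneg_right _ h1.le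
    linarith
  have h9 : 2 * ((t : ℝ) + 2 ^ k) * (th ^ K / (1 - th)) = 2 * th ^ K / (1 - th) * t + 2 * th ^ K / (1 - th) * (2 : ℝ) ^ k := by ring
  linarith

/-- the rare events -/
def Zp (K k Y x : ℕ) : Prop := Ep K k x ∨ (Bdd x ∧ ∃ i, k < i ∧ Y ≤ Tn^[i] x)

theorem Zp_sync (K k Y : ℕ) {n n' : ℕ} (h : Tn^[k] n = Tn^[k] n') (hE : Ep K k n ↔ Ep K k n') :
    Zp K k Y n ↔ Zp K k Y n' := by
  have aux : ∀ n n' : ℕ, Tn^[k] n = Tn^[k] n' → (Bdd n ∧ ∃ i, k < i ∧ Y ≤ Tn^[i] n) → (Bdd n' ∧ ∃ i, k < i ∧ Y ≤ Tn^[i] n') := by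
    rintro n n' h ⟨h1, i, h2, h3⟩
    refine ⟨(Bdd_iter n' k).2 (h ▸ (Bdd_iter n k).1 h1), i, h2, ?_⟩
    obtain ⟨j, rfl⟩ := Nat.exists_eq_add_of_lt h2
    rw [show k + j + 1 = (j + 1) + k by ring, Function.iterate_add_apply] at h3 ⊢
    rw [← h]
    exact h3
  unfold Zp
  rw [hE]
  exact or_congr Iff.rfl ⟨aux n n' h, aux n' n h.symm⟩

theorem zd_all {P : ℕ → Prop} (h : Dn P 0) {ε : ℝ} (hε : 0 < ε) : ∃ C : ℝ, 0 ≤ C ∧ ∀ t : ℕ, cnt P t ≤ ε * t + C := by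
  obtain ⟨N0, hN0⟩ := eventually_atTop.1 (zd_iff.1 h ε hε)
  refine ⟨N0, Nat.cast_nonneg _, fun t => ?_⟩
  rcases lt_or_ge t N0 with hlt | hge
  · have h4 : cnt P t ≤ t := by
      rw [cnt_ic]
      calc ∑ x ∈ Icc 1 t, ic P x ≤ ∑ x ∈ Icc 1 t, (1 : ℝ) := sum_le_sum fun n _ => ic_le_one _ _
        _ = t := by simp
    have h5 : (t : ℝ) ≤ N0 := by exact_mod_cast hlt.le
    have h6 : 0 ≤ ε * t := by positivity
    linarith
  · have := hN0 t hge
    have h5 : (0 : ℝ) ≤ N0 := Nat.cast_nonneg _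
    linarith

theorem kk_lt {M : ℕ} (i : ℕ) (hi : kk 2 M < i) : 1 / (16 * Real.log 2) * Real.log M ≤ i := by
  have h1 : 1 / (16 * Real.log ((2 : ℕ) : ℝ)) * Real.log M < kk 2 M + 1 := Nat.lt_floor_add_one _
  have h2 : (kk 2 M : ℝ) + 1 ≤ i := by exact_mod_cast hi
  push_cast at h1
  linarith

theorem Zp_cnt (K D : ℕ) {ε : ℝ} (hε : 0 < ε) : ∃ C : ℝ, 0 ≤ C ∧ ∀ M Y t : ℕ, M ≤ D * Y → t ≤ M →
    cnt (Zp K (kk 2 M) Y) t ≤ (2 * th ^ K / (1 - th) + ε) * t + (2 / (1 - th) * 2 ^ kk 2 M + C) := by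
  have hl2 : 0 < Real.log 2 := Real.log_pos (by norm_num)
  obtain ⟨C, hC, h⟩ := zd_all (late_return (τ := 1 / (16 * Real.log 2)) (by positivity) D) hε
  refine ⟨C, hC, fun M Y t hMY htM => ?_⟩
  have h1 : cnt (Zp K (kk 2 M) Y) t ≤ cnt (Ep K (kk 2 M)) t +
      cnt (fun n => Bdd n ∧ ∃ k : ℕ, 1 / (16 * Real.log 2) * Real.log n ≤ k ∧ n ≤ D * Tn^[k] n) t := by
    refine cnt_or t fun n hn hnt hp => ?_
    rcases hp with hp | ⟨hp1, i, hi1, hi2⟩
    · exact Or.inl hp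
    · right
      refine ⟨hp1, i, ?_, ?_⟩
      · refine le_trans ?_ (kk_lt i hi1)
        apply mul_le_mul_of_nonneg_left _ (by positivity)
        have hn0 : (0 : ℝ) < n := by exact_mod_cast hn
        apply Real.log_le_log hn0
        exact_mod_cast hnt.trans htM
      · exact (hnt.trans htM).trans (hMY.trans (Nat.mul_le_mul_left _ hi2))
  have h2 := Ep_cnt K (kk 2 M) t
  have h3 := h t
  linarith

/-- the key implication -/
theorem to_Zp {lam : ℝ} (hl : 1 ≤ lam) {K n1 : ℕ} (hn1 : ∀ k ≤ K, ∀ a ≤ K, (3 : ℝ) ^ a < lam * 2 ^ k →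
    (3 : ℝ) ^ K ≤ (lam * 2 ^ k - 3 ^ a) * n1) {k Y n : ℕ} (hn : 1 ≤ n) (h1 : n1 < n) (h2 : Y ≤ n) (h3 : 2 ^ k ≤ n)
    (hA : AK K lam n) (hB : Bdd n) (hE : ¬ ∀ k, ((Tn^[k] n : ℕ) : ℝ) ≤ lam * n) : Zp K k Y n := by
  push Not at hE
  obtain ⟨j, hk⟩ := hE
  have hnR : (0 : ℝ) < n := by exact_mod_cast hn
  have hle : n ≤ Tn^[j] n := by
    have h4 : (n : ℝ) ≤ lam * n := by nlinarith
    have h5 : (n : ℝ) < ((Tn^[j] n : ℕ) : ℝ) := by linarith
    exact_mod_cast h5.le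
  rcases lt_or_ge k j with hjk | hjk
  · exact Or.inr ⟨hB, j, hjk, h2.trans hle⟩
  · rcases lt_or_ge j K with hkK | hKj
    · exfalso
      have hk1 : 1 ≤ j := by
        by_contra h0
        have : j = 0 := by omega
        subst this
        simp only [Function.iterate_zero, id] at hk
        nlinarith
      have h4 := hA j hk1 hkK.le
      have h5 := hn1 j hkK.le (od j n) ((od_le j n).trans hkK.le) h4
      have h6 := iter_real j n
      have h7 : (er j n : ℝ) ≤ 3 ^ K := by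
        have h8 : er j n ≤ 3 ^ j := by
          have := er_le j n
          exact le_trans (Nat.le_add_right _ _) this
        have h9 : 3 ^ j ≤ 3 ^ K := Nat.pow_le_pow_right (by norm_num) hkK.le
        exact_mod_cast h8.trans h9
      have h1R : (n1 : ℝ) ≤ n := by exact_mod_cast h1.le
      have h8 : (lam * 2 ^ j - 3 ^ od j n) * n1 ≤ (lam * 2 ^ j - 3 ^ od j n) * n :=
        mul_le_mul_of_nonneg_left h1R (by linarith)
      have h9 : (2 : ℝ) ^ j * ((Tn^[j] n : ℕ) : ℝ) ≤ 2 ^ j * (lam * n) := by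
        rw [h6]
        have : (2 : ℝ) ^ j * (lam * n) = 3 ^ od j n * n + (lam * 2 ^ j - 3 ^ od j n) * n := by ring
        rw [this]; linarith
      have h10 := le_of_mul_le_mul_left h9 (by positivity)
      linarith
    · refine Or.inl ⟨j, hKj, hjk, ?_⟩
      have h2j : 2 ^ j ≤ n := (Nat.pow_le_pow_right (by norm_num) hjk).trans h3
      have h4 := Pool.Agent.Helper894.Collatz.lt_pow j n (n / 2 ^ j + 1)
        (Nat.lt_mul_div_succ n (by positivity))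
      rw [Tn_eq] at h4
      have h5 : n < 3 ^ od j n * (n / 2 ^ j + 1) := lt_of_le_of_lt hle h4
      have h6 : 2 ^ j * (n / 2 ^ j) ≤ n := Nat.mul_div_le n (2 ^ j)
      have h7 : 2 ^ j * n < 2 * 3 ^ od j n * n := by
        calc 2 ^ j * n < 2 ^ j * (3 ^ od j n * (n / 2 ^ j + 1)) :=
              Nat.mul_lt_mul_of_pos_left h5 (by positivity)
          _ = 3 ^ od j n * (2 ^ j * (n / 2 ^ j) + 2 ^ j) := by ring
          _ ≤ 3 ^ od j n * (n + n) := Nat.mul_le_mul_left _ (by omega)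
          _ = 2 * 3 ^ od j n * n := by ring
      exact lt_of_mul_lt_mul_right h7 (Nat.zero_le n)

end Pool.Agent.Y965.GQ
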