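import Pool.Agent.Y965.GQ.Law

/-! The law of the maximum excursion along `⌊n ^ c⌋`: the limit. -/

set_option autoImplicit false

namespace Pool.Agent.Y965.GQ

open Finset Filter Topology Pool.Agent.H499R2.ND Pool.Agent.Y965.PS Pool.Agent.Y965.GP
open Pool.Agent.Helper894.Collatz (od er)

theorem kk_tendsto {c : ℝ} (hc : 1 < c) : Tendsto (fun N : ℕ => kk 2 ⌊(N : ℝ) ^ c⌋₊) atTop atTop := by
  have hl2 : 0 < Real.log ((2 : ℕ) : ℝ) := by push_cast; exact Real.log_pos (by norm_num)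
  have h1 : Tendsto (fun N : ℕ => ⌊1 / (16 * Real.log ((2 : ℕ) : ℝ)) * Real.log (N : ℝ)⌋₊) atTop atTop := by
    apply tendsto_nat_floor_atTop.comp
    exact (Real.tendsto_log_atTop.comp tendsto_natCast_atTop_atTop).const_mul_atTop (by positivity)
  refine tendsto_atTop_mono' _ ?_ h1
  filter_upwards [eventually_ge_atTop 1] with N hN
  unfold kk
  apply Nat.floor_le_floor
  apply mul_le_mul_of_nonneg_left _ (by positivity)
  have hN0 : (0 : ℝ) < N := by exact_mod_cast hN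
  apply Real.log_le_log hN0
  exact_mod_cast floor_pow_ge hc hN

theorem pow_kk_le {c : ℝ} (hc : 1 < c) (hc2 : c ≤ 2) {N : ℕ} (hN : 1 ≤ N) :
    (2 : ℝ) ^ kk 2 ⌊(N : ℝ) ^ c⌋₊ ≤ (N : ℝ) ^ (1 / 8 : ℝ) := by
  have hN1 : (1 : ℝ) ≤ N := by exact_mod_cast hN
  have hNM := floor_pow_ge hc hN
  have h1 := kk_pow (d := 2) (N := ⌊(N : ℝ) ^ c⌋₊) le_rfl (hN.trans hNM)
  push_cast at h1
  refine h1.trans ?_
  have h2 : ((⌊(N : ℝ) ^ c⌋₊ : ℕ) : ℝ) ≤ (N : ℝ) ^ c := Nat.floor_le (by positivity)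
  calc ((⌊(N : ℝ) ^ c⌋₊ : ℕ) : ℝ) ^ (1 / 16 : ℝ) ≤ ((N : ℝ) ^ c) ^ (1 / 16 : ℝ) :=
        Real.rpow_le_rpow (Nat.cast_nonneg _) h2 (by norm_num)
    _ = (N : ℝ) ^ (c * (1 / 16)) := by rw [← Real.rpow_mul (by linarith)]
    _ ≤ (N : ℝ) ^ (1 / 8 : ℝ) := Real.rpow_le_rpow_of_exponent_le hN1 (by linarith)

theorem Zp_pc {c a K' : ℝ} (hc : 1 < c) (hc2 : c ≤ 2) (ha : 0 < a) (hT : TR c a K') (K : ℕ) {δ ε : ℝ}
    (hδ : 0 < δ) (hε : 0 < ε) : ∀ᶠ N : ℕ in atTop,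
      pc c (Zp K (kk 2 ⌊(N : ℝ) ^ c⌋₊) ⌊(δ * N) ^ c⌋₊) N ≤ (4 * th ^ K / (1 - th) + ε) * N := by
  classical
  have hth := th_pos
  have hth1 := th_lt
  have hc0 : 0 < c := by linarith
  have hδc : 0 < δ ^ c := Real.rpow_pos_of_pos hδ c
  set D : ℕ := ⌈2 / δ ^ c⌉₊ with hD
  obtain ⟨C, hC, hcnt⟩ := Zp_cnt K D (ε := ε / 8) (by positivity)
  have hlim : Tendsto (fun N : ℕ => 2 / (1 - th) * (N : ℝ) ^ (-(7 / 8) : ℝ) + (C * (N : ℝ)⁻¹ + |K'| * (N : ℝ) ^ (-a))) atTop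
      (𝓝 (2 / (1 - th) * 0 + (C * 0 + |K'| * 0))) := by
    refine Tendsto.add ?_ (Tendsto.add ?_ ?_)
    · exact ((tendsto_rpow_neg_atTop (by norm_num)).comp tendsto_natCast_atTop_atTop).const_mul _
    · exact (tendsto_inv_atTop_zero.comp tendsto_natCast_atTop_atTop).const_mul _
    · exact ((tendsto_rpow_neg_atTop ha).comp tendsto_natCast_atTop_atTop).const_mul _
  rw [mul_zero, mul_zero, mul_zero, add_zero, add_zero] at hlim
  have hbig : Tendsto (fun N : ℕ => (δ * N) ^ c) atTop atTop :=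
    (tendsto_rpow_atTop hc0).comp (tendsto_natCast_atTop_atTop.const_mul_atTop hδ)
  filter_upwards [eventually_ge_atTop 1, hlim.eventually (gt_mem_nhds (by positivity : (0 : ℝ) < ε / 2)),
    hbig.eventually_ge_atTop 2] with N hN h1 h2
  have hNp : (0 : ℝ) < N := by exact_mod_cast hN
  set M := ⌊(N : ℝ) ^ c⌋₊ with hM
  set Y := ⌊(δ * N) ^ c⌋₊ with hY
  have hMY : M ≤ D * Y := by
    have g1 : (M : ℝ) ≤ (N : ℝ) ^ c := Nat.floor_le (by positivity)
    have g2 : (δ * N) ^ c < Y + 1 := Nat.lt_floor_add_one _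
    have g3 : (δ * N) ^ c ≤ 2 * Y := by linarith
    have g4 : (δ * (N : ℝ)) ^ c = δ ^ c * (N : ℝ) ^ c := Real.mul_rpow hδ.le hNp.le
    have g5 : (N : ℝ) ^ c ≤ 2 / δ ^ c * Y := by
      rw [g4] at g3
      rw [div_mul_eq_mul_div, le_div_iff₀ hδc]
      linarith
    have g6 : 2 / δ ^ c ≤ D := Nat.le_ceil _
    have g7 : (M : ℝ) ≤ D * Y := by
      have : 2 / δ ^ c * Y ≤ D * Y := mul_le_mul_of_nonneg_right g6 (Nat.cast_nonneg _)
      linarith
    exact_mod_cast g7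
  have hw := wc_le hc (P := Zp K (kk 2 M) Y) hN (ε := 2 * th ^ K / (1 - th) + ε / 8)
    (C := 2 / (1 - th) * 2 ^ kk 2 M + C) (by
      have : 0 < 1 - th := by linarith
      positivity) (by
      have : 0 < 1 - th := by linarith
      positivity) (fun t ht => hcnt M Y t hMY ht)
  have htr := hT N hN (fun n => decide (Ep K (kk 2 M) n)) (Zp K (kk 2 M) Y) (fun n v => by
      rw [decide_eq_decide]; exact Ep_period K _ n v)
    (fun n n' he hg => Zp_sync K _ Y he (by simpa using hg))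
  have hp := (abs_le.1 htr).2
  have hk := pow_kk_le hc hc2 hN
  rw [← hM] at hk
  have e1 : (N : ℝ) ^ (1 - a) = N * (N : ℝ) ^ (-a) := by
    rw [sub_eq_add_neg, Real.rpow_add hNp, Real.rpow_one]
  have e2 : (N : ℝ) ^ (1 / 8 : ℝ) = N * (N : ℝ) ^ (-(7 / 8) : ℝ) := by
    calc (N : ℝ) ^ (1 / 8 : ℝ) = (N : ℝ) ^ (1 + -(7 / 8) : ℝ) := by norm_num
      _ = _ := by rw [Real.rpow_add hNp, Real.rpow_one]
  have h3 : 2 / (1 - th) * (2 : ℝ) ^ kk 2 M ≤ 2 / (1 - th) * (N * (N : ℝ) ^ (-(7 / 8) : ℝ)) := by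
    rw [← e2]
    apply mul_le_mul_of_nonneg_left hk
    have : 0 < 1 - th := by linarith
    positivity
  have h4 : K' * (N : ℝ) ^ (1 - a) ≤ |K'| * (N * (N : ℝ) ^ (-a)) := by
    rw [← e1]
    exact mul_le_mul_of_nonneg_right (le_abs_self K') (by positivity)
  have h5 : (2 / (1 - th) * (N : ℝ) ^ (-(7 / 8) : ℝ) + (C * (N : ℝ)⁻¹ + |K'| * (N : ℝ) ^ (-a))) * N =
      2 / (1 - th) * (N * (N : ℝ) ^ (-(7 / 8) : ℝ)) + C + |K'| * (N * (N : ℝ) ^ (-a)) := by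
    have : (N : ℝ)⁻¹ * N = 1 := inv_mul_cancel₀ hNp.ne'
    calc (2 / (1 - th) * (N : ℝ) ^ (-(7 / 8) : ℝ) + (C * (N : ℝ)⁻¹ + |K'| * (N : ℝ) ^ (-a))) * N =
        2 / (1 - th) * (N * (N : ℝ) ^ (-(7 / 8) : ℝ)) + C * ((N : ℝ)⁻¹ * N) + |K'| * (N * (N : ℝ) ^ (-a)) := by ring
      _ = _ := by rw [this, mul_one]
  have h6 := mul_le_mul_of_nonneg_right h1.le hNp.le
  rw [h5] at h6
  have h7 : 2 * (2 * th ^ K / (1 - th) + ε / 8) * (N : ℝ) = 4 * th ^ K / (1 - th) * N + ε / 4 * N := by ring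
  have h8 : (4 * th ^ K / (1 - th) + ε) * (N : ℝ) = 4 * th ^ K / (1 - th) * N + ε * N := by ring
  rw [h7] at hw
  rw [h8]
  have h9 : 0 < ε * N := by positivity
  linarith

/-- THE LAW OF THE MAXIMUM EXCURSION ALONG `⌊n ^ c⌋` -/
theorem exc_pc {c a K' : ℝ} (hc : 1 < c) (hc2 : c ≤ 2) (ha : 0 < a) (hT : TR c a K') {β lam q : ℝ}
    (hβ : Dn Bdd β) (hl : 1 ≤ lam) (hq : Tendsto (fun K => rK K lam) atTop (𝓝 q)) :
    Tendsto (fun N : ℕ => pc c (fun x => ∀ k, ((Tn^[k] x : ℕ) : ℝ) ≤ lam * x) N / N) atTop (𝓝 (β * q)) := by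
  classical
  have hth := th_pos
  have hth1 := th_lt
  rw [Metric.tendsto_atTop]
  intro ε hε
  have h1 : Tendsto (fun K => 4 * th ^ K / (1 - th)) atTop (𝓝 0) := by
    have := ((tendsto_pow_atTop_nhds_zero_of_lt_one hth.le hth1).const_mul 4).div_const (1 - th)
    simpa using this
  have h2 : Tendsto (fun K => |rK K lam * β - β * q|) atTop (𝓝 0) := by
    have h3 := (hq.mul_const β).sub_const (β * q)
    rw [mul_comm q β, sub_self] at h3
    simpa using h3.abs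
  obtain ⟨K, hK1, hK2⟩ := ((h1.eventually (gt_mem_nhds (show (0 : ℝ) < ε / 8 by positivity))).and
    (h2.eventually (gt_mem_nhds (show (0 : ℝ) < ε / 8 by positivity)))).exists
  obtain ⟨n1, hn1⟩ := exists_nK K lam
  have hkk := kk_tendsto hc
  have hPK := pc_lim hc ha hT (P := fun n => AK K lam n ∧ Bdd n) (dn_AK Bdd_inv hβ K lam) (by
    filter_upwards [hkk.eventually_ge_atTop K] with N hN
    refine ⟨fun n => decide (AK K lam n), fun n v => ?_, fun n n' he hg => ?_⟩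
    · rw [decide_eq_decide]
      unfold AK
      refine forall_congr' fun k => forall_congr' fun _ => ?_
      constructor
      · intro h hk
        have := h hk
        rwa [od_period (hk.trans hN)] at this
      · intro h hk
        rw [od_period (hk.trans hN)]
        exact h hk
    · have hA : AK K lam n ↔ AK K lam n' := by simpa using hg
      have hB : Bdd n ↔ Bdd n' := by
        rw [Bdd_iter n (kk 2 ⌊(N : ℝ) ^ c⌋₊), he, ← Bdd_iter n' (kk 2 ⌊(N : ℝ) ^ c⌋₊)]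
      rw [hA, hB])
  have hZ := Zp_pc hc hc2 ha hT K (δ := ε / 16) (ε := ε / 16) (by positivity) (by positivity)
  have hbig : Tendsto (fun N : ℕ => ε / 16 * (N : ℝ)) atTop atTop :=
    tendsto_natCast_atTop_atTop.const_mul_atTop (by positivity)
  have h18 : Tendsto (fun N : ℕ => (N : ℝ) ^ (7 / 8 : ℝ) * (ε / 16)) atTop atTop :=
    ((tendsto_rpow_atTop (by norm_num)).comp tendsto_natCast_atTop_atTop).atTop_mul_const (by positivity)
  obtain ⟨Na, hNa⟩ := Metric.tendsto_atTop.1 hPK (ε / 8) (by positivity)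
  have hNa' : ∀ᶠ N : ℕ in atTop, dist (pc c (fun n => AK K lam n ∧ Bdd n) N / N) (rK K lam * β) < ε / 8 :=
    eventually_atTop.2 ⟨Na, fun N hN => hNa N hN⟩
  obtain ⟨N0, hN0⟩ := eventually_atTop.1 (hNa'.and (hZ.and
      ((hbig.eventually_ge_atTop ((n1 : ℝ) + 1)).and ((h18.eventually_ge_atTop 1).and (eventually_ge_atTop 1)))))
  refine ⟨N0, fun N hN => ?_⟩
  obtain ⟨g1, g2, g3, g4, g5⟩ := hN0 N hN
  have hNp : (0 : ℝ) < N := by exact_mod_cast g5
  have hN1 : (1 : ℝ) ≤ N := by exact_mod_cast g5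
  set M := ⌊(N : ℝ) ^ c⌋₊ with hM
  set Y := ⌊(ε / 16 * N) ^ c⌋₊ with hY
  have hk := pow_kk_le hc hc2 g5
  rw [← hM] at hk
  -- pointwise bounds
  have i1 : pc c (fun x => ∀ k, ((Tn^[k] x : ℕ) : ℝ) ≤ lam * x) N ≤ pc c (fun n => AK K lam n ∧ Bdd n) N := by
    unfold pc
    apply sum_le_sum
    intro n hn
    rw [mem_Icc] at hn
    apply ic_mono
    intro h
    have hx : 1 ≤ ⌊(n : ℝ) ^ c⌋₊ := hn.1.trans (floor_pow_ge hc hn.1)
    exact ⟨AK_of_bound hl hx h K, ⌊lam * (⌊(n : ℝ) ^ c⌋₊ : ℝ)⌋₊, fun k => Nat.le_floor (h k)⟩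
  have i2 : pc c (fun n => AK K lam n ∧ Bdd n) N ≤ pc c (fun x => ∀ k, ((Tn^[k] x : ℕ) : ℝ) ≤ lam * x) N
      + ((∑ n ∈ Icc 1 N, if (n : ℝ) ≤ ε / 16 * N then (1 : ℝ) else 0) + pc c (Zp K (kk 2 M) Y) N) := by
    unfold pc
    rw [← sum_add_distrib, ← sum_add_distrib]
    apply sum_le_sum
    intro n hn
    rw [mem_Icc] at hn
    set x := ⌊(n : ℝ) ^ c⌋₊ with hx
    have hnx : n ≤ x := floor_pow_ge hc hn.1
    have e0 := ic_nonneg (fun x => ∀ k, ((Tn^[k] x : ℕ) : ℝ) ≤ lam * x) x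
    have e1 := ic_nonneg (Zp K (kk 2 M) Y) x
    have e2 := ic_le_one (fun n => AK K lam n ∧ Bdd n) x
    by_cases hcase : (n : ℝ) ≤ ε / 16 * N
    · rw [if_pos hcase]
      linarith
    · rw [if_neg hcase, zero_add]
      push Not at hcase
      by_cases hP : AK K lam x ∧ Bdd x
      · by_cases hE : ∀ k, ((Tn^[k] x : ℕ) : ℝ) ≤ lam * x
        · have e3 : ic (fun x => ∀ k, ((Tn^[k] x : ℕ) : ℝ) ≤ lam * x) x = 1 := by unfold ic; rw [if_pos hE]
          rw [e3]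
          linarith
        · have hZx : Zp K (kk 2 M) Y x := by
            refine to_Zp hl hn1 (hn.1.trans hnx) ?_ ?_ ?_ hP.1 hP.2 hE
            · have h6 : (n1 : ℝ) < n := by linarith
              have h7 : n1 < n := by exact_mod_cast h6
              omega
            · apply Nat.floor_le_floor
              exact Real.rpow_le_rpow (by positivity) hcase.le (by linarith)
            · have h6 : (2 : ℝ) ^ kk 2 M ≤ n := by
                refine hk.trans (le_trans ?_ hcase.le)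
                have h7 : (N : ℝ) = (N : ℝ) ^ (1 / 8 : ℝ) * (N : ℝ) ^ (7 / 8 : ℝ) := by
                  rw [← Real.rpow_add hNp]; norm_num
                have h8 : (N : ℝ) ^ (1 / 8 : ℝ) * 1 ≤ (N : ℝ) ^ (1 / 8 : ℝ) * ((N : ℝ) ^ (7 / 8 : ℝ) * (ε / 16)) :=
                  mul_le_mul_of_nonneg_left g4 (by positivity)
                have h9 : (N : ℝ) ^ (1 / 8 : ℝ) * ((N : ℝ) ^ (7 / 8 : ℝ) * (ε / 16)) = ε / 16 * N := by
                  nth_rw 3 [h7]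
                  ring
                linarith
              have h7 : 2 ^ kk 2 M ≤ n := by exact_mod_cast h6
              omega
          have e3 : ic (Zp K (kk 2 M) Y) x = 1 := by unfold ic; rw [if_pos hZx]
          rw [e3]
          linarith
      · have e3 : ic (fun n => AK K lam n ∧ Bdd n) x = 0 := by unfold ic; rw [if_neg hP]
        rw [e3]
        linarith
  have i3 : (∑ n ∈ Icc 1 N, if (n : ℝ) ≤ ε / 16 * N then (1 : ℝ) else 0) ≤ ε / 16 * N := by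
    rw [Finset.sum_boole]
    have hsub : (Icc 1 N).filter (fun n : ℕ => (n : ℝ) ≤ ε / 16 * N) ⊆ Icc 1 ⌊ε / 16 * (N : ℝ)⌋₊ := by
      intro n hn
      rw [mem_filter, mem_Icc] at hn
      rw [mem_Icc]
      exact ⟨hn.1.1, Nat.le_floor hn.2⟩
    have h6 := card_le_card hsub
    rw [Nat.card_Icc, Nat.add_sub_cancel] at h6
    calc (((Icc 1 N).filter (fun n : ℕ => (n : ℝ) ≤ ε / 16 * N)).card : ℝ) ≤ (⌊ε / 16 * (N : ℝ)⌋₊ : ℝ) := by exact_mod_cast h6
      _ ≤ _ := Nat.floor_le (by positivity)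
  have g6 : |pc c (fun x => ∀ k, ((Tn^[k] x : ℕ) : ℝ) ≤ lam * x) N / N - pc c (fun n => AK K lam n ∧ Bdd n) N / N|
      ≤ ε / 4 := by
    rw [← sub_div, abs_div, abs_of_pos hNp, div_le_iff₀ hNp, abs_le]
    have h7 : (4 * th ^ K / (1 - th) + ε / 16) * N ≤ (ε / 8 + ε / 16) * N := by
      apply mul_le_mul_of_nonneg_right _ hNp.le
      linarith
    have h8 : 0 < ε * N := by positivity
    constructor
    · linarith
    · linarith
  rw [Real.dist_eq] at g1 ⊢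
  calc |pc c (fun x => ∀ k, ((Tn^[k] x : ℕ) : ℝ) ≤ lam * x) N / N - β * q|
      = |(pc c (fun x => ∀ k, ((Tn^[k] x : ℕ) : ℝ) ≤ lam * x) N / N - pc c (fun n => AK K lam n ∧ Bdd n) N / N)
        + (pc c (fun n => AK K lam n ∧ Bdd n) N / N - rK K lam * β) + (rK K lam * β - β * q)| := by
        congr 1; ring
    _ ≤ ε / 4 + ε / 8 + ε / 8 := by
        refine (abs_add_le _ _).trans (add_le_add ((abs_add_le _ _).trans (add_le_add g6 g1.le)) hK2.le)
    _ < ε := by linarith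

/-- the bounded trajectories along `⌊n ^ c⌋` -/
theorem bdd_pc {c a K' : ℝ} (hc : 1 < c) (ha : 0 < a) (hT : TR c a K') {β : ℝ} (hβ : Dn Bdd β) :
    Tendsto (fun N : ℕ => pc c Bdd N / N) atTop (𝓝 β) := by
  refine pc_lim hc ha hT hβ (Eventually.of_forall fun N => ⟨fun _ => true, fun _ _ => rfl, fun n n' he _ => ?_⟩)
  rw [Bdd_iter n (kk 2 ⌊(N : ℝ) ^ c⌋₊), he, ← Bdd_iter n' (kk 2 ⌊(N : ℝ) ^ c⌋₊)]

end Pool.Agent.Y965.GQ
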