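import Pool.Agent.Y965.GQ.Kd
import Pool.Agent.H499R2.NDExc2

/-! The transfer to the sequences `⌊n ^ c⌋` and the `3x+1` map. -/

set_option autoImplicit false

namespace Pool.Agent.Y965.GQ

open Finset Filter Topology Pool.Agent.H319R3.GC Pool.Agent.Y965.PS Pool.Agent.Y965.GP

/-- THE TRANSFER -/
theorem transferG {d : ℕ} {m r : ℕ → ℤ} (h : Adm d m r) : ∃ a : ℝ, 0 < a ∧ a ≤ 1 / 20 ∧ ∀ c : ℝ, 1 < c → c < 1 / (1 - a) →
    ∃ K : ℝ, 1 ≤ K ∧ ∀ s : ℤ, (s = 1 ∨ s = -1) → ∀ N : ℕ, 1 ≤ N → ∀ (g : ℕ → Bool) (F : ℕ → ℝ),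
      SyncG d (Tm d m r) s ⌊(N : ℝ) ^ c⌋₊ g F →
      |∑ n ∈ Icc 1 N, F ⌊(n : ℝ) ^ c⌋₊ - ∑ x ∈ Icc 1 ⌊(N : ℝ) ^ c⌋₊, F x * ell (1 / c) x|
        ≤ K * (N : ℝ) ^ (1 - a) := by
  obtain ⟨a, ha0, ha, hmain⟩ := main_bound_g h
  refine ⟨a, ha0, ha, ?_⟩
  intro c hc hca
  have hc0 : 0 < c := by linarith
  obtain ⟨g0, g1⟩ := gam (by linarith) hc hca
  obtain ⟨C, hC, hb⟩ := hmain (1 - 1 / c) g0 g1
  refine ⟨C, hC, ?_⟩
  intro s hs N hN g F hF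
  set M := ⌊(N : ℝ) ^ c⌋₊ with hM
  have hNM : N ≤ M := floor_pow_ge hc hN
  have hM1 : 1 ≤ M := hN.trans hNM
  have hNpos : (0 : ℝ) < N := by exact_mod_cast hN
  have hN1R : (1 : ℝ) ≤ N := by exact_mod_cast hN
  have hMpos : (0 : ℝ) < M := by exact_mod_cast hM1
  have h1 := conv hc.le N (fun z => F z.toNat)
  have h2 := hb s hs M hM1 g F hF
  have e1 : 1 - (1 - 1 / c) = 1 / c := by ring
  rw [e1] at h2
  have e2 : ∑ n ∈ Icc 1 N, F ⌊(n : ℝ) ^ c⌋₊ - ∑ x ∈ Icc 1 M, F x * ell (1 / c) x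
      = ∑ n ∈ Icc 1 M, F n * ww (1 / c) n := by
    have e3 : ∑ n ∈ Icc 1 N, F ⌊(n : ℝ) ^ c⌋₊ = ∑ n ∈ Icc 1 N, F (⌊(n : ℝ) ^ c⌋).toNat := by
      apply sum_congr rfl
      intro n _
      rw [Int.floor_toNat]
    rw [e3, h1, ← sum_sub_distrib]
    apply sum_congr rfl
    intro x _
    rw [Int.toNat_natCast]
    unfold ww ell
    ring
  rw [e2]
  refine h2.trans ?_
  apply mul_le_mul_of_nonneg_left _ (by linarith)
  have h3 : (M : ℝ) ≤ (N : ℝ) ^ c := Nat.floor_le (by positivity)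
  have h4 : 0 ≤ 1 / c - a := by linarith
  calc (M : ℝ) ^ (1 / c - a) ≤ ((N : ℝ) ^ c) ^ (1 / c - a) := Real.rpow_le_rpow hMpos.le h3 h4
    _ = (N : ℝ) ^ (1 - a * c) := by
        rw [← Real.rpow_mul hNpos.le]
        congr 1
        field_simp
    _ ≤ (N : ℝ) ^ (1 - a) := by
        apply Real.rpow_le_rpow_of_exponent_le hN1R
        nlinarith

/-- the multipliers of the `3x+1` map -/
def m3 (i : ℕ) : ℤ := if i = 0 then 1 else 3

/-- the shifts of the `3x+1` map -/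
def r3 (i : ℕ) : ℤ := if i = 0 then 0 else -1

theorem adm3 : Adm 2 m3 r3 := by
  refine ⟨le_rfl, ?_, ?_, ?_, ?_⟩
  · intro i hi
    interval_cases i
    · simp [m3]
    · rw [Int.isCoprime_iff_gcd_eq_one]
      simp [m3]
      decide
  · intro i hi
    interval_cases i <;> simp [m3, r3]
  · simp [Pool.Agent.H319R3.GC.PP, prod_range_succ, m3]
  · simp [Pool.Agent.H319R3.GC.PP, prod_range_succ, m3]

open Pool.Agent.H499R2.ND in
theorem Tm3 (n : ℕ) : Tm 2 m3 r3 (n : ℤ) = ((Tn n : ℕ) : ℤ) := by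
  unfold Tm m3 r3
  simp only [Tn]
  rcases Nat.mod_two_eq_zero_or_one n with h | h
  · have h1 : ((n : ℤ) % ((2 : ℕ) : ℤ)).toNat = 0 := by omega
    rw [h1, if_pos rfl, if_pos rfl, if_pos h]
    push_cast
    omega
  · have h1 : ((n : ℤ) % ((2 : ℕ) : ℤ)).toNat = 1 := by omega
    rw [h1, if_neg one_ne_zero, if_neg one_ne_zero, if_neg (by omega)]
    push_cast
    omega

open Pool.Agent.H499R2.ND in
theorem Tm3_iter (k n : ℕ) : (Tm 2 m3 r3)^[k] (n : ℤ) = ((Tn^[k] n : ℕ) : ℤ) := by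
  induction k generalizing n with
  | zero => rfl
  | succ k ih => rw [Function.iterate_succ_apply, Function.iterate_succ_apply, Tm3, ih]

end Pool.Agent.Y965.GQ
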